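import Pool.Agent.Helper70.SUB.SheetA

/-!
Project SUB, row CORE: `y ^ 2 - x ^ 3` for values of Laurent polynomials.
-/

set_option autoImplicit false

namespace Pool.Agent.Helper17.SUB

open Finset Filter Topology Pool.Agent.Helper70.SUB

/-! ### along an infinite set -/

/-- the filter of the infinite set `M` -/
def Lm (M : Set ℕ) : Filter ℕ := cofinite ⊓ 𝓟 M

theorem ev_iff {M : Set ℕ} {P : ℕ → Prop} :
    (∀ᶠ j in Lm M, P j) ↔ {j | j ∈ M ∧ ¬ P j}.Finite := by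
  unfold Lm
  rw [eventually_inf_principal, eventually_cofinite]
  have : {x | ¬ (x ∈ M → P x)} = {j | j ∈ M ∧ ¬ P j} := by
    ext j
    simp
  rw [this]

theorem ev_mem (M : Set ℕ) : ∀ᶠ j in Lm M, j ∈ M := by
  rw [ev_iff]
  have : {j | j ∈ M ∧ ¬ j ∈ M} = (∅ : Set ℕ) := by
    ext j
    simp
  rw [this]
  exact Set.finite_empty

theorem neBot {M : Set ℕ} (h : M.Infinite) : (Lm M).NeBot := by
  rw [neBot_iff]
  intro h0
  have h1 : ∀ᶠ j in Lm M, False := by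
    rw [h0]
    exact eventually_bot
  rw [ev_iff] at h1
  apply h
  refine h1.subset fun j hj => ?_
  exact ⟨hj, not_false⟩

/-! ### places -/

theorem av_neg (v : Option ℕ) (x : ℚ) : av v (-x) = av v x := by
  cases v with
  | none => simp [av]
  | some p => simp [av]

theorem none_mem (S : Finset ℕ) : none ∈ plc S := by simp [plc]
theorem some_mem {S : Finset ℕ} {p : ℕ} (h : p ∈ S) : some p ∈ plc S := by simp [plc, h]

theorem prod_plc (S : Finset ℕ) (f : Option ℕ → ℝ) :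
    ∏ v ∈ plc S, f v = f none * ∏ p ∈ S, f (some p) := by
  unfold plc
  rw [Finset.prod_insertNone]

/-! ### Laurent polynomials -/

section
variable {r : ℕ} (hB : ST_LAUB)
include hB

omit hB in
theorem evL_zero (w : Fin r → ℚ) : evL w (0 : Lau r) = 0 := by
  simp [evL]

theorem evL_add {w : Fin r → ℚ} (hw : ∀ k, 0 < w k) (F G : Lau r) :
    evL w (F + G) = evL w F + evL w G := ((hB r).1 w hw).2.2.1 F G

theorem evL_mul {w : Fin r → ℚ} (hw : ∀ k, 0 < w k) (F G : Lau r) :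
    evL w (F * G) = evL w F * evL w G := ((hB r).1 w hw).2.2.2.2 F G

theorem evL_sub {w : Fin r → ℚ} (hw : ∀ k, 0 < w k) (F G : Lau r) :
    evL w (F - G) = evL w F - evL w G := by
  have h := evL_add hB hw (F - G) G
  rw [sub_add_cancel] at h
  linarith

theorem evL_sum {w : Fin r → ℚ} (hw : ∀ k, 0 < w k) {ι : Type} (s : Finset ι) (f : ι → Lau r) :
    evL w (∑ i ∈ s, f i) = ∑ i ∈ s, evL w (f i) := by
  classical
  induction s using Finset.induction_on with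
  | empty => rw [sum_empty, sum_empty, evL_zero]
  | insert a s ha ih => rw [sum_insert ha, sum_insert ha, evL_add hB hw, ih]

theorem evL_drv {w : Fin r → ℚ} (hw : ∀ k, 0 < w k) (δ : Fin r → ℤ) (F : Lau r) :
    evL w (drv δ F) = ∑ m ∈ Finsupp.support F.coeff,
      (((∑ k, δ k * m k : ℤ) : ℚ) * F.coeff m) * mon w m := by
  unfold drv
  rw [evL_sum hB hw]
  exact sum_congr rfl fun m _ => ((hB r).1 w hw).2.1 m _

theorem drv_add (δ : Fin r → ℤ) (F G : Lau r) : drv δ (F + G) = drv δ F + drv δ G :=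
  ((hB r).2 δ).2.1 F G

theorem drv_mul (δ : Fin r → ℤ) (F G : Lau r) : drv δ (F * G) = F * drv δ G + drv δ F * G :=
  ((hB r).2 δ).2.2.1 F G

theorem drv_sub (δ : Fin r → ℤ) (F G : Lau r) : drv δ (F - G) = drv δ F - drv δ G := by
  have h := drv_add hB δ (F - G) G
  rw [sub_add_cancel] at h
  exact eq_sub_of_add_eq h.symm

end

/-! ### sizes -/

section
variable {r : ℕ} {S : Finset ℕ} {M : Set ℕ} {w : ℕ → Fin r → ℚ} {H : ℕ → ℝ} {ε1 : ℝ} {F : Lau r}

theorem termsA (h2 : ST_LAU2) (hS : ∀ p ∈ S, p.Prime) (hM : M.Infinite) (hI : Indep M w)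
    (hH : ∀ j ∈ M, ∀ k, SQ S (H j) (w j k)) (hH1 : ∀ j ∈ M, 1 ≤ H j) (h0 : 0 < ε1) (hF : F ≠ 0) (hAV : ST_AV) :
    ∃ K : ℝ, 1 ≤ K ∧ ∀ᶠ j in Lm M, ∀ v ∈ plc S, ∀ m ∈ Finsupp.support F.coeff,
      av v (mon (w j) m) * H j ^ (-ε1) ≤ K * av v (evL (w j) F) := by
  classical
  have h3 : ∀ v ∈ plc S, ∃ C : ℝ, 0 < C ∧ ∀ᶠ j in Lm M, ∀ m ∈ Finsupp.support F.coeff,
      C * av v (mon (w j) m) * H j ^ (-ε1) ≤ av v (evL (w j) F) := fun v hv => by
    obtain ⟨C, hC, hf⟩ := h2 r S M w F ε1 H v hS hM h0 hF hI hH hH1 hv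
    exact ⟨C, hC, ev_iff.2 hf⟩
  choose! C hC hf using h3
  refine ⟨1 + ∑ v ∈ plc S, (C v)⁻¹, ?_, ?_⟩
  · have : 0 ≤ ∑ v ∈ plc S, (C v)⁻¹ := sum_nonneg fun v hv => (inv_pos.2 (hC v hv)).le
    linarith
  · have h4 : ∀ᶠ j in Lm M, ∀ v ∈ plc S, ∀ m ∈ Finsupp.support F.coeff,
        C v * av v (mon (w j) m) * H j ^ (-ε1) ≤ av v (evL (w j) F) :=
      (eventually_all_finset (plc S)).2 hf
    refine h4.mono fun j hj v hv m hm => ?_
    have h5 := hj v hv m hm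
    have h6 := hC v hv
    have h7 : (C v)⁻¹ ≤ 1 + ∑ v ∈ plc S, (C v)⁻¹ := by
      have := single_le_sum (f := fun v => (C v)⁻¹) (fun v hv => (inv_pos.2 (hC v hv)).le) hv
      have h8 : (C v)⁻¹ ≤ ∑ v ∈ plc S, (C v)⁻¹ := this
      linarith
    have h9 : av v (mon (w j) m) * H j ^ (-ε1) ≤ (C v)⁻¹ * av v (evL (w j) F) := by
      rw [inv_mul_eq_div, le_div_iff₀ h6]
      linarith
    exact h9.trans (mul_le_mul_of_nonneg_right h7 (hAV.1 _ _))

theorem drvB (h2 : ST_LAU2) (hB : ST_LAUB) (hAV : ST_AV) (hS : ∀ p ∈ S, p.Prime) (hM : M.Infinite)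
    (hI : Indep M w) (hH : ∀ j ∈ M, ∀ k, SQ S (H j) (w j k)) (hH1 : ∀ j ∈ M, 1 ≤ H j)
    (h0 : 0 < ε1) (hF : F ≠ 0) (hp : ∀ᶠ j in Lm M, 0 < H j) (δ : Fin r → ℤ) :
    ∃ K : ℝ, 1 ≤ K ∧ ∀ᶠ j in Lm M, ∀ v ∈ plc S,
      av v (evL (w j) (drv δ F)) ≤ K * av v (evL (w j) F) * H j ^ ε1 := by
  classical
  obtain ⟨K, hK, h3⟩ := termsA h2 hS hM hI hH hH1 h0 hF hAV
  obtain ⟨av0, avz, avS⟩ := hAV
  obtain ⟨apos, amul, aadd, amax, aint, aone, aprod, aunit, asum⟩ := avS S hS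
  set c : (Fin r → ℤ) → ℚ := fun m => ((∑ k, δ k * m k : ℤ) : ℚ) * F.coeff m with hc
  set A : ℝ := ∑ v ∈ plc S, ∑ m ∈ Finsupp.support F.coeff, av v (c m) with hA
  have hA0 : 0 ≤ A := sum_nonneg fun v _ => sum_nonneg fun m _ => av0 _ _
  have hAm : ∀ v ∈ plc S, ∀ m ∈ Finsupp.support F.coeff, av v (c m) ≤ A := fun v hv m hm => by
    have e1 : av v (c m) ≤ ∑ m ∈ Finsupp.support F.coeff, av v (c m) :=
      single_le_sum (f := fun m => av v (c m)) (fun _ _ => av0 _ _) hm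
    have e2 : ∑ m ∈ Finsupp.support F.coeff, av v (c m) ≤ A :=
      single_le_sum (f := fun v => ∑ m ∈ Finsupp.support F.coeff, av v (c m))
        (fun _ _ => sum_nonneg fun _ _ => av0 _ _) hv
    exact e1.trans e2
  set N : ℝ := ((Finsupp.support F.coeff).card : ℝ) with hN
  have hN0 : 0 ≤ N := Nat.cast_nonneg _
  refine ⟨1 + (N + 1) * (A * K), ?_, ?_⟩
  · have : 0 ≤ (N + 1) * (A * K) := by positivity
    linarith
  · filter_upwards [h3, hp, ev_mem M] with j hj hpj hjM v hv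
    have hw : ∀ k, 0 < w j k := hI.1 j hjM
    have hh : 0 < H j ^ ε1 := Real.rpow_pos_of_pos hpj _
    have hinv : H j ^ (-ε1) = (H j ^ ε1)⁻¹ := Real.rpow_neg hpj.le _
    rw [evL_drv hB hw]
    have hE : 0 ≤ av v (evL (w j) F) := av0 _ _
    have hb : 0 ≤ A * K * av v (evL (w j) F) * H j ^ ε1 := by positivity
    have h4 : ∀ m ∈ Finsupp.support F.coeff, av v (c m * mon (w j) m) ≤
        A * K * av v (evL (w j) F) * H j ^ ε1 := fun m hm => by
      have h5 := hj v hv m hm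
      rw [hinv, ← div_eq_mul_inv, div_le_iff₀ hh] at h5
      rw [amul v hv]
      have h6 := mul_le_mul (hAm v hv m hm) h5 (av0 _ _) hA0
      refine h6.trans (le_of_eq ?_)
      ring
    have h7 := asum v hv (Fin r → ℤ) (Finsupp.support F.coeff) (fun m => c m * mon (w j) m) _ hb h4
    refine h7.trans ?_
    have h8 : (if v = none then ((Finsupp.support F.coeff).card : ℝ) else 1) ≤ N + 1 := by
      split_ifs
      · linarith
      · linarith
    have h9 := mul_le_mul_of_nonneg_right h8 hb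
    refine h9.trans ?_
    have h10 : (1 + (N + 1) * (A * K)) * av v (evL (w j) F) * H j ^ ε1 =
        av v (evL (w j) F) * H j ^ ε1 + (N + 1) * (A * K * av v (evL (w j) F) * H j ^ ε1) := by ring
    rw [h10]
    have : 0 ≤ av v (evL (w j) F) * H j ^ ε1 := by positivity
    linarith

end

/-! ### the identity -/

/-- `2 X DY - 3 Y DX` -/
noncomputable def Wp {r : ℕ} (X Y DX DY : Lau r) : Lau r := X * DY + X * DY - (Y * DX + Y * DX + Y * DX)

theorem ident {r : ℕ} (hB : ST_LAUB) (X Y : Lau r) (δ : Fin r → ℤ) :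
    X * X * Wp X Y (drv δ X) (drv δ Y) =
      Y * drv δ (Y * Y - X * X * X) - ((Y * Y - X * X * X) * drv δ Y +
        (Y * Y - X * X * X) * drv δ Y) := by
  rw [drv_sub hB, drv_mul hB, drv_mul hB, drv_mul hB]
  unfold Wp
  ring

theorem evW {r : ℕ} (hB : ST_LAUB) {w : Fin r → ℚ} (hw : ∀ k, 0 < w k) (X Y DX DY : Lau r) :
    evL w (Wp X Y DX DY) = evL w X * evL w DY + evL w X * evL w DY -
      (evL w Y * evL w DX + evL w Y * evL w DX + evL w Y * evL w DX) := by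
  unfold Wp
  rw [evL_sub hB hw, evL_add hB hw, evL_add hB hw, evL_add hB hw, evL_mul hB hw, evL_mul hB hw]

theorem mon_pos {r : ℕ} {w : Fin r → ℚ} (hw : ∀ k, 0 < w k) (m : Fin r → ℤ) : 0 < mon w m :=
  Finset.prod_pos fun k _ => zpow_pos (hw k) _

/-- a nonzero Laurent polynomial has few zeros -/
theorem ev_ne {r : ℕ} {S : Finset ℕ} {M : Set ℕ} {w : ℕ → Fin r → ℚ} {H : ℕ → ℝ} {ε1 : ℝ}
    {F : Lau r} (h2 : ST_LAU2) (hS : ∀ p ∈ S, p.Prime) (hM : M.Infinite) (hI : Indep M w)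
    (hH : ∀ j ∈ M, ∀ k, SQ S (H j) (w j k)) (hH1 : ∀ j ∈ M, 1 ≤ H j) (h0 : 0 < ε1)
    (hp : ∀ᶠ j in Lm M, 0 < H j) (hAV : ST_AV) (hF : F ≠ 0) : ∀ᶠ j in Lm M, evL (w j) F ≠ 0 := by
  obtain ⟨K, hK, h3⟩ := termsA h2 hS hM hI hH hH1 h0 hF hAV
  have hs : (Finsupp.support F.coeff).Nonempty := by
    rw [Finsupp.support_nonempty_iff]
    intro h
    exact hF (AddMonoidAlgebra.coeff_eq_zero.1 h)
  obtain ⟨m, hm⟩ := hs
  filter_upwards [h3, hp, ev_mem M] with j hj hpj hjM hz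
  have h4 := hj none (none_mem S) m hm
  rw [hz, hAV.2.1, mul_zero] at h4
  have h5 : 0 < av none (mon (w j) m) := by
    show 0 < |((mon (w j) m : ℚ) : ℝ)|
    rw [abs_pos]
    exact_mod_cast (mon_pos (hI.1 j hjM) m).ne'
  have h6 : 0 < H j ^ (-ε1) := Real.rpow_pos_of_pos hpj _
  have := mul_pos h5 h6
  linarith

/-- the number of the places is finite -/
theorem real_bd {K t β θ γ yy dd ee : ℝ} {n : ℕ} {P : ℝ} (hK : 1 ≤ K) (ht : 1 ≤ t)
    (hy0 : 0 ≤ yy) (hy : yy ^ 2 ≤ 2 * t ^ 3) (hd : dd ≤ t ^ β) (hd0 : 0 ≤ dd)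
    (he : t * t * ee ≤ 3 * (K * yy * dd * t ^ θ)) (he0 : 0 ≤ ee)
    (hP : P ≤ (5 * (K * t ^ θ)) ^ n) (hP0 : 0 ≤ P) (hg : β - 1 / 2 + θ * (n + 1) = -γ) :
    ee * P ≤ 6 * K * (5 * K) ^ n * t ^ (-γ) := by
  have ht0 : 0 < t := by linarith
  have hy2 : yy ≤ 2 * t ^ (3 / 2 : ℝ) := by
    have h1 : (t ^ (3 / 2 : ℝ)) ^ 2 = t ^ 3 := by
      rw [← Real.rpow_natCast (t ^ (3 / 2 : ℝ)) 2, ← Real.rpow_mul ht0.le, ← Real.rpow_natCast t 3]
      norm_num
    have h2 : yy ^ 2 ≤ (2 * t ^ (3 / 2 : ℝ)) ^ 2 := by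
      rw [mul_pow, h1]
      have : 0 ≤ t ^ 3 := by positivity
      linarith
    exact (pow_le_pow_iff_left₀ hy0 (by positivity) (by norm_num)).1 h2
  have hθ : 0 < t ^ θ := Real.rpow_pos_of_pos ht0 _
  have hβ : 0 < t ^ β := Real.rpow_pos_of_pos ht0 _
  have h3 : 0 < t ^ (3 / 2 : ℝ) := Real.rpow_pos_of_pos ht0 _
  have e1 : ee ≤ 6 * K * t ^ (β + θ - 1 / 2) := by
    have h4 : t ^ (β + θ - 1 / 2) * (t * t) = t ^ (3 / 2 : ℝ) * t ^ β * t ^ θ := by
      have h5 : t * t = t ^ (2 : ℝ) := by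
        rw [show (2 : ℝ) = ((2 : ℕ) : ℝ) by norm_num, Real.rpow_natCast]
        ring
      rw [h5, ← Real.rpow_add ht0, ← Real.rpow_add ht0, ← Real.rpow_add ht0]
      congr 1
      ring
    have h6 : yy * dd ≤ 2 * t ^ (3 / 2 : ℝ) * t ^ β := mul_le_mul hy2 hd hd0 (by positivity)
    have h7 : 3 * (K * yy * dd * t ^ θ) ≤ 3 * K * t ^ θ * (2 * t ^ (3 / 2 : ℝ) * t ^ β) := by
      have h8 : 0 ≤ 3 * K * t ^ θ := by positivity
      have h9 := mul_le_mul_of_nonneg_left h6 h8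
      refine le_trans (le_of_eq ?_) h9
      ring
    have h10 : ee * (t * t) ≤ 6 * K * t ^ (β + θ - 1 / 2) * (t * t) := by
      rw [mul_assoc (6 * K), h4]
      have : 3 * K * t ^ θ * (2 * t ^ (3 / 2 : ℝ) * t ^ β) = 6 * K * (t ^ (3 / 2 : ℝ) * t ^ β * t ^ θ) := by
        ring
      rw [← this]
      refine le_trans (le_of_eq ?_) (he.trans h7)
      ring
    exact le_of_mul_le_mul_right h10 (by positivity)
  have e2 : (5 * (K * t ^ θ)) ^ n = (5 * K) ^ n * t ^ (θ * n) := by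
    rw [Real.rpow_mul ht0.le, Real.rpow_natCast, ← mul_pow, mul_assoc]
  have e3 : t ^ (-γ) = t ^ (β + θ - 1 / 2) * t ^ (θ * n) := by
    rw [← Real.rpow_add ht0]
    congr 1
    linarith
  calc ee * P ≤ (6 * K * t ^ (β + θ - 1 / 2)) * ((5 * K) ^ n * t ^ (θ * n)) := by
        rw [← e2]
        exact mul_le_mul e1 hP hP0 (by positivity)
    _ = 6 * K * (5 * K) ^ n * t ^ (-γ) := by
        rw [e3]
        ring

/-- CORE, all numbers `x` are at least `1` -/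
theorem CORE1 (hAV : ST_AV) (hB : ST_LAUB) (h1 : ST_LAU1) (h2 : ST_LAU2) (hN : ST_NUM)
    (r : ℕ) (S : Finset ℕ) (M : Set ℕ) (w : ℕ → Fin r → ℚ) (X Y : Lau r) (a ε : ℝ) (x y : ℕ → ℤ)
    (hS : ∀ p ∈ S, p.Prime) (hM : M.Infinite) (hε : 0 < ε) (ha : 0 < a) (hI : Indep M w)
    (hx : ∀ B : ℝ, {j | j ∈ M ∧ |(x j : ℝ)| ≤ B}.Finite)
    (h : ∀ j ∈ M, (∀ k, SQ S (|(x j : ℝ)| ^ a) (w j k)) ∧ (x j : ℚ) = evL (w j) X ∧
      (y j : ℚ) = evL (w j) Y ∧ y j ^ 2 ≠ x j ^ 3 ∧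
      |((y j ^ 2 - x j ^ 3 : ℤ) : ℝ)| ≤ |(x j : ℝ)| ^ (1 / (2 + ε)))
    (hx1 : ∀ j ∈ M, 1 ≤ |(x j : ℝ)|) : False := by
  classical
  have hne := neBot hM
  obtain ⟨av0, avz, avS⟩ := id hAV
  obtain ⟨apos, amul, aadd, amax, aint, aone, aprod, aunit, asum⟩ := avS S hS
  -- large `x`
  have hbig : ∀ B : ℝ, ∀ᶠ j in Lm M, B < |(x j : ℝ)| := fun B => by
    rw [ev_iff]
    refine (hx B).subset fun j hj => ?_
    exact ⟨hj.1, not_lt.1 hj.2⟩
  have hH : ∀ j ∈ M, ∀ k, SQ S (|(x j : ℝ)| ^ a) (w j k) := fun j hj => (h j hj).1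
  have hH1 : ∀ j ∈ M, 1 ≤ |(x j : ℝ)| ^ a := fun j hj => Real.one_le_rpow (hx1 j hj) ha.le
  have hpos : ∀ᶠ j in Lm M, 0 < |(x j : ℝ)| ^ a := by
    filter_upwards [hbig 1] with j hj
    exact Real.rpow_pos_of_pos (by linarith) _
  -- exponents
  set β : ℝ := 1 / (2 + ε) with hβ
  have hβ0 : 0 < β := by positivity
  have hβ1 : β < 1 / 2 := by
    rw [hβ]
    exact one_div_lt_one_div_of_lt (by norm_num) (by linarith)
  set γ : ℝ := 1 / 2 - β with hγ
  have hγ0 : 0 < γ := by linarith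
  set n : ℕ := S.card with hn
  have hn1 : (0 : ℝ) < n + 1 := by positivity
  set θ : ℝ := γ / (2 * (n + 1)) with hθ
  have hθ0 : 0 < θ := by positivity
  set ε1 : ℝ := θ / a with hε1
  have hε10 : 0 < ε1 := by positivity
  have hHQ : ∀ j, (|(x j : ℝ)| ^ a) ^ ε1 = |(x j : ℝ)| ^ θ := fun j => by
    rw [← Real.rpow_mul (abs_nonneg _), hε1, mul_div_cancel₀ _ ha.ne']
  -- values
  have hw : ∀ j ∈ M, ∀ k, 0 < w j k := hI.1
  have hxe : ∀ j ∈ M, (x j : ℚ) = evL (w j) X := fun j hj => (h j hj).2.1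
  have hye : ∀ j ∈ M, (y j : ℚ) = evL (w j) Y := fun j hj => (h j hj).2.2.1
  set Z : Lau r := Y * Y - X * X * X with hZ
  have hze : ∀ j ∈ M, ((y j ^ 2 - x j ^ 3 : ℤ) : ℚ) = evL (w j) Z := fun j hj => by
    rw [hZ, evL_sub hB (hw j hj), evL_mul hB (hw j hj), evL_mul hB (hw j hj), evL_mul hB (hw j hj),
      ← hxe j hj, ← hye j hj]
    push_cast
    ring
  have hd : ∀ j ∈ M, |((y j ^ 2 - x j ^ 3 : ℤ) : ℝ)| ≤ |(x j : ℝ)| ^ β := fun j hj =>
    (h j hj).2.2.2.2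
  have hdn : ∀ j ∈ M, evL (w j) Z ≠ 0 := fun j hj => by
    rw [← hze j hj]
    have := (h j hj).2.2.2.1
    intro h3
    apply this
    have h4 : y j ^ 2 - x j ^ 3 = 0 := by exact_mod_cast h3
    linarith
  -- bounds for `y`
  have hyb : ∀ᶠ j in Lm M, |(y j : ℝ)| ^ 2 ≤ 2 * |(x j : ℝ)| ^ 3 ∧
      |(x j : ℝ)| ^ 3 / 2 ≤ |(y j : ℝ)| ^ 2 := by
    filter_upwards [hbig 2, ev_mem M] with j hj hjM
    have h3 := hd j hjM
    have h4 : |(x j : ℝ)| ^ β ≤ |(x j : ℝ)| ^ (1 : ℝ) :=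
      Real.rpow_le_rpow_of_exponent_le (by linarith) (by linarith)
    rw [Real.rpow_one] at h4
    have h5 : ((y j ^ 2 - x j ^ 3 : ℤ) : ℝ) = (y j : ℝ) ^ 2 - (x j : ℝ) ^ 3 := by push_cast; ring
    rw [h5] at h3
    have h6 : |(y j : ℝ)| ^ 2 = (y j : ℝ) ^ 2 := sq_abs _
    have h7 : |(x j : ℝ)| ^ 3 = |(x j : ℝ) ^ 3| := (abs_pow _ _).symm
    have h8 : |(x j : ℝ)| ≤ |(x j : ℝ)| ^ 3 / 2 := by nlinarith [sq_nonneg (|(x j : ℝ)|)]
    have h9 := abs_sub_abs_le_abs_sub ((y j : ℝ) ^ 2) ((x j : ℝ) ^ 3)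
    have h10 := abs_sub_abs_le_abs_sub ((x j : ℝ) ^ 3) ((y j : ℝ) ^ 2)
    rw [abs_sub_comm ((x j : ℝ) ^ 3)] at h10
    rw [abs_of_nonneg (sq_nonneg (y j : ℝ))] at h9 h10
    rw [h6]
    constructor
    · linarith
    · linarith
  -- the Laurent polynomials are not zero
  obtain ⟨j0, hj0, hj0x, hj0y⟩ := ((ev_mem M).and ((hbig 2).and hyb)).exists
  have hXn : X ≠ 0 := by
    rintro rfl
    have h3 := hxe j0 hj0
    rw [evL_zero] at h3
    have h4 : x j0 = 0 := by exact_mod_cast h3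
    rw [h4] at hj0x
    norm_num at hj0x
  have hYn : Y ≠ 0 := by
    rintro rfl
    have h3 := hye j0 hj0
    rw [evL_zero] at h3
    have h4 : y j0 = 0 := by exact_mod_cast h3
    have h5 := hj0y.2
    rw [h4] at h5
    have h6 : 0 < |(x j0 : ℝ)| ^ 3 := by positivity
    norm_num at h5
    linarith
  have hZn : Z ≠ 0 := by
    intro h3
    apply hdn j0 hj0
    rw [h3, evL_zero]
  -- the polynomial `W` vanishes
  have hW : ∀ δ : Fin r → ℤ, Wp X Y (drv δ X) (drv δ Y) = 0 := by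
    intro δ
    by_contra hWn
    obtain ⟨KX, hKX, bX⟩ := drvB h2 hB hAV hS hM hI hH hH1 hε10 hXn hpos δ
    obtain ⟨KY, hKY, bY⟩ := drvB h2 hB hAV hS hM hI hH hH1 hε10 hYn hpos δ
    obtain ⟨KZ, hKZ, bZ⟩ := drvB h2 hB hAV hS hM hI hH hH1 hε10 hZn hpos δ
    obtain ⟨c, hc, hc2⟩ := hN r S (Wp X Y (drv δ X) (drv δ Y)) hS
    have hWv := ev_ne h2 hS hM hI hH hH1 hε10 hpos hAV hWn
    set K : ℝ := KX + KY + KZ with hK
    have hK1 : 1 ≤ K := by linarith
    have hlim : ∀ᶠ j in Lm M, 6 * K * (5 * K) ^ n * |(x j : ℝ)| ^ (-(γ / 2)) < c := by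
      have h3 := (tendsto_rpow_neg_atTop (show 0 < γ / 2 by positivity)).const_mul
        (6 * K * (5 * K) ^ n)
      rw [mul_zero] at h3
      have h4 := h3.eventually (gt_mem_nhds hc)
      have h5 : Tendsto (fun j => |(x j : ℝ)|) (Lm M) atTop :=
        tendsto_atTop.2 fun B => (hbig B).mono fun _ h => h.le
      exact h5.eventually h4
    obtain ⟨j, hjM, hj1, hjy, hbX, hbY, hbZ, hjW, hjl⟩ :=
      ((ev_mem M).and ((hbig 1).and (hyb.and (bX.and (bY.and (bZ.and (hWv.and hlim))))))).exists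
    set t : ℝ := |(x j : ℝ)| with ht
    set Q : ℝ := t ^ θ with hQ
    have hQ0 : 0 < Q := Real.rpow_pos_of_pos (by linarith) _
    rw [hHQ j] at hbX hbY hbZ
    have hwj := hw j hjM
    -- weaker constants
    have cX : ∀ v ∈ plc S, av v (evL (w j) (drv δ X)) ≤ K * av v (evL (w j) X) * Q := fun v hv => by
      refine (hbX v hv).trans ?_
      have h3 : 0 ≤ av v (evL (w j) X) := av0 _ _
      have h4 : KX ≤ K := by linarith
      gcongr
    have cY : ∀ v ∈ plc S, av v (evL (w j) (drv δ Y)) ≤ K * av v (evL (w j) Y) * Q := fun v hv => by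
      refine (hbY v hv).trans ?_
      have h3 : 0 ≤ av v (evL (w j) Y) := av0 _ _
      have h4 : KY ≤ K := by linarith
      gcongr
    have cZ : ∀ v ∈ plc S, av v (evL (w j) (drv δ Z)) ≤ K * av v (evL (w j) Z) * Q := fun v hv => by
      refine (hbZ v hv).trans ?_
      have h3 : 0 ≤ av v (evL (w j) Z) := av0 _ _
      have h4 : KZ ≤ K := by linarith
      gcongr
    -- the finite places
    have fin : ∀ p ∈ S, av (some p) (evL (w j) (Wp X Y (drv δ X) (drv δ Y))) ≤ 5 * (K * Q) := by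
      intro p hp
      have hv := some_mem hp
      rw [evW hB hwj]
      have ax : av (some p) (evL (w j) X) ≤ 1 := by
        rw [← hxe j hjM]
        exact aint p hp _
      have ay : av (some p) (evL (w j) Y) ≤ 1 := by
        rw [← hye j hjM]
        exact aint p hp _
      have ax0 := av0 (some p) (evL (w j) X)
      have ay0 := av0 (some p) (evL (w j) Y)
      have hKQ : 0 ≤ K * Q := by positivity
      have t1 : av (some p) (evL (w j) X * evL (w j) (drv δ Y)) ≤ K * Q := by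
        rw [amul _ hv]
        have h3 := cY _ hv
        have h4 : K * av (some p) (evL (w j) Y) * Q ≤ K * Q := by
          have := mul_le_mul_of_nonneg_left ay hKQ
          linarith
        calc _ ≤ 1 * (K * Q) := mul_le_mul ax (h3.trans h4) (av0 _ _) (by norm_num)
          _ = K * Q := one_mul _
      have t2 : av (some p) (evL (w j) Y * evL (w j) (drv δ X)) ≤ K * Q := by
        rw [amul _ hv]
        have h3 := cX _ hv
        have h4 : K * av (some p) (evL (w j) X) * Q ≤ K * Q := by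
          have := mul_le_mul_of_nonneg_left ax hKQ
          linarith
        calc _ ≤ 1 * (K * Q) := mul_le_mul ay (h3.trans h4) (av0 _ _) (by norm_num)
          _ = K * Q := one_mul _
      rw [sub_eq_add_neg]
      refine (aadd _ hv _ _).trans ?_
      rw [av_neg]
      have s1 := aadd _ hv (evL (w j) X * evL (w j) (drv δ Y)) (evL (w j) X * evL (w j) (drv δ Y))
      have s2 := aadd _ hv (evL (w j) Y * evL (w j) (drv δ X) + evL (w j) Y * evL (w j) (drv δ X))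
        (evL (w j) Y * evL (w j) (drv δ X))
      have s3 := aadd _ hv (evL (w j) Y * evL (w j) (drv δ X)) (evL (w j) Y * evL (w j) (drv δ X))
      linarith
    -- the real place
    have inf : t * t * av none (evL (w j) (Wp X Y (drv δ X) (drv δ Y))) ≤
        3 * (K * av none (evL (w j) Y) * av none (evL (w j) Z) * Q) := by
      have hv := none_mem S
      have h3 := congrArg (evL (w j)) (ident hB X Y δ)
      rw [evL_mul hB hwj, evL_mul hB hwj, evL_sub hB hwj, evL_mul hB hwj, evL_add hB hwj,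
        evL_mul hB hwj] at h3
      have h4 := congrArg (av none) h3
      have hxt : av none (evL (w j) X) = t := by
        rw [← hxe j hjM]
        show |(((x j : ℤ) : ℚ) : ℝ)| = |(x j : ℝ)|
        push_cast
        rfl
      rw [amul _ hv, amul _ hv, hxt] at h4
      rw [h4, sub_eq_add_neg]
      refine (aadd _ hv _ _).trans ?_
      rw [av_neg]
      have s1 := aadd _ hv (evL (w j) Z * evL (w j) (drv δ Y)) (evL (w j) Z * evL (w j) (drv δ Y))
      have u1 : av none (evL (w j) Y * evL (w j) (drv δ Z)) ≤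
          K * av none (evL (w j) Y) * av none (evL (w j) Z) * Q := by
        rw [amul _ hv]
        have := mul_le_mul_of_nonneg_left (cZ _ hv) (av0 none (evL (w j) Y))
        linarith
      have u2 : av none (evL (w j) Z * evL (w j) (drv δ Y)) ≤
          K * av none (evL (w j) Y) * av none (evL (w j) Z) * Q := by
        rw [amul _ hv]
        have := mul_le_mul_of_nonneg_left (cY _ hv) (av0 none (evL (w j) Z))
        linarith
      linarith
    -- the product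
    have hprod := hc2 (w j) _ hwj (hH j hjM) hjW
    rw [prod_plc] at hprod
    have hP : ∏ p ∈ S, av (some p) (evL (w j) (Wp X Y (drv δ X) (drv δ Y))) ≤ (5 * (K * Q)) ^ n := by
      rw [hn, ← prod_const]
      exact prod_le_prod (fun p _ => av0 _ _) fin
    have hyj : av none (evL (w j) Y) = |(y j : ℝ)| := by
      rw [← hye j hjM]
      show |(((y j : ℤ) : ℚ) : ℝ)| = |(y j : ℝ)|
      push_cast
      rfl
    have hdj : av none (evL (w j) Z) ≤ t ^ β := by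
      rw [← hze j hjM]
      refine le_trans (le_of_eq ?_) (hd j hjM)
      show |(((y j ^ 2 - x j ^ 3 : ℤ) : ℚ) : ℝ)| = _
      push_cast
      rfl
    have hfin := real_bd (K := K) (t := t) (β := β) (θ := θ) (γ := γ / 2)
      (yy := av none (evL (w j) Y)) (dd := av none (evL (w j) Z))
      (ee := av none (evL (w j) (Wp X Y (drv δ X) (drv δ Y)))) (n := n)
      (P := ∏ p ∈ S, av (some p) (evL (w j) (Wp X Y (drv δ X) (drv δ Y)))) hK1 hj1.le (av0 _ _)
      (by rw [hyj]; exact hjy.1) hdj (av0 _ _) inf (av0 _ _) hP (prod_nonneg fun p _ => av0 _ _)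
      (by
        rw [hθ, hγ]
        field_simp
        ring)
    linarith
  -- proportional
  have hL : ∃ c : ℚ, Z = c • (Y * Y) := by
    refine h1 r Z (Y * Y) ?_ fun δ => ?_
    · intro h3
      have h4 := evL_mul hB (hw j0 hj0) Y Y
      rw [h3, evL_zero, ← hye j0 hj0] at h4
      have h5 : y j0 = 0 := by
        have : (y j0 : ℚ) = 0 := by
          rcases mul_eq_zero.1 h4.symm with h | h
          · exact h
          · exact h
        exact_mod_cast this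
      have h6 := hj0y.2
      rw [h5] at h6
      have h7 : 0 < |(x j0 : ℝ)| ^ 3 := by positivity
      norm_num at h6
      linarith
    · have h3 := ident hB X Y δ
      rw [hW δ, mul_zero] at h3
      rw [drv_mul hB]
      have h4 : Y * drv δ Z = Z * drv δ Y + Z * drv δ Y := by
        rw [eq_comm, sub_eq_zero] at h3
        exact h3
      calc Z * (Y * drv δ Y + drv δ Y * Y) = Y * (Z * drv δ Y + Z * drv δ Y) := by ring
        _ = Y * (Y * drv δ Z) := by rw [h4]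
        _ = Y * Y * drv δ Z := by ring
  obtain ⟨c, hc⟩ := hL
  have hcv : ∀ j ∈ M, ((y j ^ 2 - x j ^ 3 : ℤ) : ℚ) = c * (y j : ℚ) ^ 2 := fun j hj => by
    rw [hze j hj, hc, ((hB r).1 (w j) (hw j hj)).2.2.2.1, evL_mul hB (hw j hj), ← hye j hj]
    ring
  have hc0 : c ≠ 0 := by
    rintro rfl
    have h3 := hcv j0 hj0
    apply hdn j0 hj0
    rw [← hze j0 hj0, h3, zero_mul]
  have hc1 : (0 : ℝ) < |(c : ℝ)| := by
    rw [abs_pos]
    exact_mod_cast hc0
  obtain ⟨j, hjM, hj2, hjb, hjy⟩ := ((ev_mem M).and ((hbig 2).and ((hbig (2 / |(c : ℝ)|)).and hyb))).exists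
  have h3 : |((y j ^ 2 - x j ^ 3 : ℤ) : ℝ)| = |(c : ℝ)| * |(y j : ℝ)| ^ 2 := by
    have h4 : ((y j ^ 2 - x j ^ 3 : ℤ) : ℝ) = (c : ℝ) * (y j : ℝ) ^ 2 := by
      have h5 := hcv j hjM
      have h6 : (((y j ^ 2 - x j ^ 3 : ℤ) : ℚ) : ℝ) = ((c * (y j : ℚ) ^ 2 : ℚ) : ℝ) := by rw [h5]
      push_cast at h6 ⊢
      exact h6
    rw [h4, abs_mul, abs_pow]
  have h4 := hd j hjM
  rw [h3] at h4
  have h5 : |(x j : ℝ)| ^ β ≤ |(x j : ℝ)| ^ (1 : ℝ) :=
    Real.rpow_le_rpow_of_exponent_le (by linarith) (by linarith)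
  rw [Real.rpow_one] at h5
  have h6 := hjy.2
  have h7 : |(c : ℝ)| * (|(x j : ℝ)| ^ 3 / 2) ≤ |(x j : ℝ)| := by
    have := mul_le_mul_of_nonneg_left h6 hc1.le
    linarith
  rw [div_lt_iff₀ hc1] at hjb
  have h8 : 2 < |(c : ℝ)| * |(x j : ℝ)| := by linarith
  have h9 : |(x j : ℝ)| < |(c : ℝ)| * (|(x j : ℝ)| ^ 3 / 2) := by
    have h10 : 2 * |(x j : ℝ)| ^ 2 < |(c : ℝ)| * |(x j : ℝ)| * |(x j : ℝ)| ^ 2 := by
      have : 0 < |(x j : ℝ)| ^ 2 := by positivity
      nlinarith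
    nlinarith
  linarith

/-- CORE -/
theorem CORE (hAV : ST_AV) (hB : ST_LAUB) (h1 : ST_LAU1) (h2 : ST_LAU2) (hN : ST_NUM) : ST_CORE := by
  intro r S M w X Y a ε x y hS hM hε ha hI hx h
  have hsub : {j | j ∈ M ∧ 1 < |(x j : ℝ)|} ⊆ M := fun j hj => hj.1
  refine CORE1 hAV hB h1 h2 hN r S {j | j ∈ M ∧ 1 < |(x j : ℝ)|} w X Y a ε x y hS ?_ hε ha ?_
    (fun B => (hx B).subset fun j hj => ⟨hj.1.1, hj.2⟩) (fun j hj => h j hj.1)
    (fun j hj => hj.2.le)
  · intro hf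
    apply hM
    refine ((hx 1).union hf).subset fun j hj => ?_
    rcases le_or_gt (|(x j : ℝ)|) 1 with h3 | h3
    · exact Or.inl ⟨hj, h3⟩
    · exact Or.inr ⟨hj, h3⟩
  · exact ⟨fun j hj => hI.1 j hj.1, fun l ρ hl => (hI.2 l ρ hl).subset fun j hj => ⟨hj.1.1, hj.2⟩⟩

end Pool.Agent.Helper17.SUB
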