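import Pool.Agent.Helper17.SUB.CORE
import Pool.Agent.Helper78.SUB.LAU2

/-!
Project SUB: the independent quantities are S-units of bounded height.
-/

set_option autoImplicit false

namespace Pool.Agent.Helper17.SUB

open Finset Filter Topology Pool.Agent.Helper70.SUB
open Pool.Agent.Helper78.SUB (SU_mul SU_pow SU_prod)

theorem SU_mono {S S' : Finset ℕ} (h : S ⊆ S') {x : ℤ} (hx : SU S x) : SU S' x :=
  ⟨hx.1, fun q hq hd => h (hx.2 q hq hd)⟩

theorem SU_dvd {S : Finset ℕ} {x y : ℤ} (hx : SU S x) (h : y ∣ x) : SU S y :=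
  ⟨fun h0 => hx.1 (by rw [h0] at h; exact zero_dvd_iff.1 h), fun q hq hd => hx.2 q hq (hd.trans h)⟩

theorem SU_abs {S : Finset ℕ} {x : ℤ} (hx : SU S x) : SU S |x| :=
  SU_dvd hx ((abs_dvd x x).2 (dvd_refl x))

theorem SQ_mono {S : Finset ℕ} {H H' : ℝ} {x : ℚ} (h : SQ S H x) (hH : H ≤ H') : SQ S H' x :=
  ⟨h.1, h.2.1, h.2.2.1.trans hH, h.2.2.2.trans hH⟩

theorem le_of_dvd {A d : ℤ} (hA : A ≠ 0) (h : d ∣ A) : |(d : ℝ)| ≤ |(A : ℝ)| := by
  have h1 : |d| ≤ |A| := by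
    have := Int.le_of_dvd (abs_pos.2 hA) ((abs_dvd_abs d A).2 h)
    exact this
  exact_mod_cast h1

/-- one rational number -/
theorem SQ_one {ι : Type} [Fintype ι] {S' : Finset ℕ} {κ : ℚ}
    (h1 : SU S' κ.num) (h2 : SU S' (κ.den : ℤ)) (e : ι → ℤ) {u : ι → ℤ} (hu : ∀ i, SU S' (u i))
    {B : ℝ} (hB : 1 ≤ B) (hb : ∀ i, |(u i : ℝ)| ≤ B) {x : ℚ}
    (hx : x = κ * ∏ i, |(u i : ℚ)| ^ (e i)) :
    SQ S' ((|(κ.num : ℝ)| + (κ.den : ℝ)) * B ^ (∑ i, (e i).natAbs)) x := by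
  classical
  set A : ℤ := κ.num * ∏ i, |u i| ^ (e i).toNat with hA
  set D : ℤ := (κ.den : ℤ) * ∏ i, |u i| ^ (-e i).toNat with hD
  have sA : SU S' A := SU_mul h1 (SU_prod _ _ fun i _ => SU_pow (SU_abs (hu i)) _)
  have sD : SU S' D := SU_mul h2 (SU_prod _ _ fun i _ => SU_pow (SU_abs (hu i)) _)
  have hxA : x = Rat.divInt A D := by
    rw [Rat.divInt_eq_div, hx, hA, hD]
    push_cast
    have e1 : ∀ i, |(u i : ℚ)| ^ (e i) = |(u i : ℚ)| ^ (e i).toNat / |(u i : ℚ)| ^ (-e i).toNat := by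
      intro i
      have hn : |(u i : ℚ)| ≠ 0 := by
        rw [abs_ne_zero]
        exact_mod_cast (hu i).1
      rw [← zpow_natCast, ← zpow_natCast, ← zpow_sub₀ hn]
      congr 1
      omega
    rw [prod_congr rfl fun i _ => e1 i, prod_div_distrib]
    conv_lhs => rw [← Rat.num_div_den κ]
    rw [div_mul_div_comm]
  have dA : x.num ∣ A := by
    rw [hxA]
    exact Rat.num_dvd A sD.1
  have dD : (x.den : ℤ) ∣ D := by
    rw [hxA]
    exact Rat.den_dvd A D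
  have bnd : ∀ f : ι → ℕ, (∀ i, f i ≤ (e i).natAbs) →
      |((∏ i, |u i| ^ f i : ℤ) : ℝ)| ≤ B ^ (∑ i, (e i).natAbs) := by
    intro f hf
    push_cast
    rw [abs_prod, ← prod_pow_eq_pow_sum]
    refine prod_le_prod (fun i _ => abs_nonneg _) fun i _ => ?_
    rw [abs_pow, abs_abs]
    exact (pow_le_pow_left₀ (abs_nonneg _) (hb i) _).trans (pow_le_pow_right₀ hB (hf i))
  have hB0 : 0 ≤ B ^ (∑ i, (e i).natAbs) := by positivity
  have hd0 : (0 : ℝ) ≤ κ.den := Nat.cast_nonneg _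
  refine ⟨SU_dvd sA dA, SU_dvd sD dD, ?_, ?_⟩
  · refine (le_of_dvd sA.1 dA).trans ?_
    rw [hA, Int.cast_mul, abs_mul]
    have h3 := bnd (fun i => (e i).toNat) (fun i => by show (e i).toNat ≤ _; omega)
    have h4 := mul_le_mul_of_nonneg_left h3 (abs_nonneg (κ.num : ℝ))
    have h5 := mul_nonneg hd0 hB0
    rw [add_mul]
    linarith
  · have h6 := le_of_dvd sD.1 dD
    have h7 : |(((x.den : ℕ) : ℤ) : ℝ)| = (x.den : ℝ) := by
      push_cast
      exact abs_of_nonneg (Nat.cast_nonneg _)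
    rw [h7] at h6
    refine h6.trans ?_
    rw [hD, Int.cast_mul, abs_mul]
    have h3 := bnd (fun i => (-e i).toNat) (fun i => by show (-e i).toNat ≤ _; omega)
    have h8 : |(((κ.den : ℕ) : ℤ) : ℝ)| = (κ.den : ℝ) := by
      push_cast
      exact abs_of_nonneg (Nat.cast_nonneg _)
    rw [h8]
    have h4 := mul_le_mul_of_nonneg_left h3 hd0
    have h5 := mul_nonneg (abs_nonneg (κ.num : ℝ)) hB0
    rw [add_mul]
    linarith

/-- all quantities -/
theorem SQ_all {ι : Type} [Fintype ι] {r : ℕ} (S : Finset ℕ) (hS : ∀ p ∈ S, p.Prime)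
    (κ : Fin r → ℚ) (hκ : ∀ k, 0 < κ k) (e : Fin r → ι → ℤ) :
    ∃ (S' : Finset ℕ) (K : ℝ) (E : ℕ), S ⊆ S' ∧ (∀ p ∈ S', p.Prime) ∧ 1 ≤ K ∧
      ∀ (u : ι → ℤ) (w : Fin r → ℚ) (B : ℝ), 1 ≤ B → (∀ i, SU S (u i)) →
        (∀ i, |(u i : ℝ)| ≤ B) → (∀ k, w k = κ k * ∏ i, |(u i : ℚ)| ^ (e k i)) →
        ∀ k, SQ S' (K * B ^ E) (w k) := by
  classical
  set S' : Finset ℕ := S ∪ univ.biUnion fun k : Fin r => (κ k).num.natAbs.primeFactors ∪
    (κ k).den.primeFactors with hS'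
  refine ⟨S', 1 + ∑ k, (|((κ k).num : ℝ)| + ((κ k).den : ℝ)), ∑ k, ∑ i, (e k i).natAbs,
    subset_union_left, ?_, ?_, ?_⟩
  · intro p hp
    rw [hS', mem_union, mem_biUnion] at hp
    rcases hp with hp | ⟨k, _, hp⟩
    · exact hS p hp
    · rw [mem_union] at hp
      rcases hp with hp | hp
      · exact Nat.prime_of_mem_primeFactors hp
      · exact Nat.prime_of_mem_primeFactors hp
  · have : 0 ≤ ∑ k, (|((κ k).num : ℝ)| + ((κ k).den : ℝ)) :=
      sum_nonneg fun k _ => add_nonneg (abs_nonneg _) (Nat.cast_nonneg _)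
    linarith
  · intro u w B hB hu hb hw k
    have hn : SU S' (κ k).num := by
      refine ⟨(Rat.num_pos.2 (hκ k)).ne', fun q hq hd => ?_⟩
      rw [hS', mem_union, mem_biUnion]
      refine Or.inr ⟨k, mem_univ k, ?_⟩
      rw [mem_union, Nat.mem_primeFactors]
      refine Or.inl ⟨hq, ?_, ?_⟩
      · exact Int.natCast_dvd.1 hd
      · exact Int.natAbs_ne_zero.2 (Rat.num_pos.2 (hκ k)).ne'
    have hdn : SU S' ((κ k).den : ℤ) := by
      refine ⟨by exact_mod_cast (κ k).den_nz, fun q hq hd => ?_⟩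
      rw [hS', mem_union, mem_biUnion]
      refine Or.inr ⟨k, mem_univ k, ?_⟩
      rw [mem_union, Nat.mem_primeFactors, Nat.mem_primeFactors]
      exact Or.inr ⟨hq, by exact_mod_cast hd, (κ k).den_nz⟩
    have h1 := SQ_one hn hdn (e k) (fun i => SU_mono (S' := S') subset_union_left (hu i)) hB hb
      (hw k)
    refine SQ_mono h1 ?_
    have h2 : |((κ k).num : ℝ)| + ((κ k).den : ℝ) ≤
        1 + ∑ k, (|((κ k).num : ℝ)| + ((κ k).den : ℝ)) := by
      have := single_le_sum (f := fun k => |((κ k).num : ℝ)| + ((κ k).den : ℝ))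
        (fun k _ => add_nonneg (abs_nonneg _) (Nat.cast_nonneg _)) (mem_univ k)
      have h3 : |((κ k).num : ℝ)| + ((κ k).den : ℝ) ≤
        ∑ k, (|((κ k).num : ℝ)| + ((κ k).den : ℝ)) := this
      linarith
    have h3 : ∑ i, (e k i).natAbs ≤ ∑ k, ∑ i, (e k i).natAbs :=
      single_le_sum (f := fun k => ∑ i, (e k i).natAbs) (fun _ _ => Nat.zero_le _) (mem_univ k)
    have h4 : B ^ (∑ i, (e k i).natAbs) ≤ B ^ (∑ k, ∑ i, (e k i).natAbs) :=
      pow_le_pow_right₀ hB h3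
    exact mul_le_mul h2 h4 (by positivity) (by
      have : 0 ≤ ∑ k, (|((κ k).num : ℝ)| + ((κ k).den : ℝ)) :=
        sum_nonneg fun k _ => add_nonneg (abs_nonneg _) (Nat.cast_nonneg _)
      linarith)

end Pool.Agent.Helper17.SUB
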