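import Pool.Agent.Helper17.SUB.SQW

/-!
Project SUB, row T1A: `x` and `y` are sums of boundedly many S-units.
-/

set_option autoImplicit false

namespace Pool.Agent.Helper17.SUB

open Finset Filter Topology Pool.Agent.Helper70.SUB

/-- the value of a sum of monomials -/
theorem evL_single_sum (hB : ST_LAUB) {r : ℕ} {w : Fin r → ℚ} (hw : ∀ k, 0 < w k) {ι : Type}
    [Fintype ι] (m : ι → Fin r → ℤ) (c : ι → ℚ) :
    evL w (∑ i, AddMonoidAlgebra.single (m i) (c i)) = ∑ i, c i * mon w (m i) := by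
  rw [evL_sum hB hw]
  exact sum_congr rfl fun i _ => ((hB r).1 w hw).2.1 _ _

/-- powers -/
theorem pow_bd {K K3 t : ℝ} {E : ℕ} (hK : 1 ≤ K) (hK3 : 1 ≤ K3) (ht : K * K3 ^ E ≤ t) :
    K * (K3 * t ^ 3) ^ E ≤ t ^ (((3 * E + 1 : ℕ) : ℝ)) := by
  have h1 : 1 ≤ K * K3 ^ E := one_le_mul_of_one_le_of_one_le hK (one_le_pow₀ hK3)
  have h0 : 0 ≤ t := by linarith
  rw [Real.rpow_natCast, mul_pow, ← pow_mul, pow_succ, ← mul_assoc]
  have h2 := mul_le_mul_of_nonneg_right ht (pow_nonneg h0 (3 * E))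
  linarith

theorem T1A (hC : ST_CLEAN) (hM : ST_MONO) (hCO : ST_CORE) (hE : ST_EXTR) (hB : ST_LAUB) :
    ST_T1A := by
  classical
  intro S t ε hS hε
  by_contra hcon
  set τ : Type := {s : (Fin t → ℤ) × (Fin t → ℤ) // (∀ i, s.1 i = 0 ∨ SU S (s.1 i)) ∧
    (∀ i, s.2 i = 0 ∨ SU S (s.2 i)) ∧ (∑ i, s.2 i) ^ 2 ≠ (∑ i, s.1 i) ^ 3} with hτ
  obtain ⟨f, hf1, hf2⟩ := hE τ (fun s => ∑ i, s.1.1 i) (fun s => ∑ i, s.1.2 i) ε hε
    (fun s => s.2.2.2) (by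
      rintro ⟨C, hC'⟩
      apply hcon
      refine ⟨C, fun a b ha hb hab => ?_⟩
      exact hC' ⟨(a, b), ha, hb, hab⟩)
  set x : ℕ → ℤ := fun j => ∑ i, (f j).1.1 i with hx
  set y : ℕ → ℤ := fun j => ∑ i, (f j).1.2 i with hy
  have hjx : ∀ j : ℕ, (j : ℝ) ≤ |(x j : ℝ)| := hf1
  have hd : ∀ j, |((y j ^ 2 - x j ^ 3 : ℤ) : ℝ)| ≤ |(x j : ℝ)| ^ (1 / (2 + ε)) := hf2
  have hne : ∀ j, y j ^ 2 ≠ x j ^ 3 := fun j => (f j).2.2.2
  -- bounds
  have hy2 : ∀ j, 2 ≤ j → |(y j : ℝ)| ^ 2 ≤ 2 * |(x j : ℝ)| ^ 3 ∧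
      |(x j : ℝ)| ^ 3 / 2 ≤ |(y j : ℝ)| ^ 2 := fun j hj => by
    have h2 : (2 : ℝ) ≤ |(x j : ℝ)| := le_trans (by exact_mod_cast hj) (hjx j)
    have h3 := hd j
    have h4 : |(x j : ℝ)| ^ (1 / (2 + ε)) ≤ |(x j : ℝ)| ^ (1 : ℝ) := by
      refine Real.rpow_le_rpow_of_exponent_le (by linarith) ?_
      rw [div_le_one (by linarith)]
      linarith
    rw [Real.rpow_one] at h4
    have h5 : ((y j ^ 2 - x j ^ 3 : ℤ) : ℝ) = (y j : ℝ) ^ 2 - (x j : ℝ) ^ 3 := by push_cast; ring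
    rw [h5] at h3
    have h6 : |(y j : ℝ)| ^ 2 = (y j : ℝ) ^ 2 := sq_abs _
    have h7 : |(x j : ℝ)| ^ 3 = |(x j : ℝ) ^ 3| := (abs_pow _ _).symm
    have h8 : |(x j : ℝ)| ≤ |(x j : ℝ)| ^ 3 / 2 := by nlinarith [sq_nonneg (|(x j : ℝ)|)]
    have h9 := abs_sub_abs_le_abs_sub ((y j : ℝ) ^ 2) ((x j : ℝ) ^ 3)
    have h10 := abs_sub_abs_le_abs_sub ((x j : ℝ) ^ 3) ((y j : ℝ) ^ 2)
    rw [abs_sub_comm ((x j : ℝ) ^ 3)] at h10
    rw [abs_of_nonneg (sq_nonneg (y j : ℝ))] at h9 h10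
    rw [h6]
    constructor
    · linarith
    · linarith
  -- cleaning of `x`
  have hMi : {j : ℕ | 2 ≤ j}.Infinite := Set.infinite_of_not_bddAbove fun ⟨b, hb⟩ => by
    have := hb (show b + 2 ∈ {j : ℕ | 2 ≤ j} by simp)
    omega
  obtain ⟨M1, t1, c1, b1, hM1, hM1i, hc1, hb1, hs1, K1, hK1⟩ := hC t S {j | 2 ≤ j}
    (fun j => (f j).1.1) hS hMi (fun j _ i => (f j).2.1 i) (fun j hj h0 => by
      have h2 : (2 : ℝ) ≤ |(x j : ℝ)| := le_trans (by exact_mod_cast hj) (hjx j)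
      have h3 : x j = 0 := h0
      rw [h3] at h2
      norm_num at h2)
  obtain ⟨M2, t2, c2, b2, hM2, hM2i, hc2, hb2, hs2, K2, hK2⟩ := hC t S M1
    (fun j => (f j).1.2) hS hM1i (fun j _ i => (f j).2.2.1 i) (fun j hj h0 => by
      have h1 := hM1 hj
      have h2 : (2 : ℝ) ≤ |(x j : ℝ)| := le_trans (by exact_mod_cast h1) (hjx j)
      have h3 : y j = 0 := h0
      have h4 := (hy2 j h1).2
      rw [h3] at h4
      have h5 : 0 < |(x j : ℝ)| ^ 3 := by positivity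
      norm_num at h4
      linarith)
  -- independent quantities
  obtain ⟨M3, r, w, m, c, hM3, hM3i, hcn, hI, hu, hw⟩ := hM (Fin t1 ⊕ Fin t2) M2
    (fun j => Sum.elim (b1 j) (b2 j)) hM2i (fun j hj i => by
      cases i with
      | inl i => exact (hb1 j (hM2 hj) i).1
      | inr i => exact (hb2 j hj i).1)
  choose κ e hκ hwe using hw
  obtain ⟨S', K, E, hSS, hS', hK, hSQ⟩ := SQ_all S hS κ hκ e
  set K3 : ℝ := 1 + |K1| + 2 * |K2| with hK3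
  have hK31 : 1 ≤ K3 := by
    have := abs_nonneg K1
    have := abs_nonneg K2
    linarith
  set R : ℕ := ⌈K * K3 ^ E⌉₊ with hR
  set M4 : Set ℕ := {j | j ∈ M3 ∧ R ≤ j} with hM4
  have hM4i : M4.Infinite := by
    intro hfin
    apply hM3i
    refine (hfin.union (Set.finite_lt_nat R)).subset fun j hj => ?_
    rcases lt_or_ge j R with h | h
    · exact Or.inr h
    · exact Or.inl ⟨hj, h⟩
  have m2 : ∀ j ∈ M4, 2 ≤ j := fun j hj => hM1 (hM2 (hM3 hj.1))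
  have hxl : ∀ j ∈ M4, (2 : ℝ) ≤ |(x j : ℝ)| := fun j hj =>
    le_trans (by exact_mod_cast m2 j hj) (hjx j)
  have hxR : ∀ j ∈ M4, K * K3 ^ E ≤ |(x j : ℝ)| := fun j hj => by
    have h1 : K * K3 ^ E ≤ R := Nat.le_ceil _
    have h2 : (R : ℝ) ≤ j := by exact_mod_cast hj.2
    exact h1.trans (h2.trans (hjx j))
  -- the height
  have hsq : ∀ j ∈ M4, ∀ k, SQ S' (|(x j : ℝ)| ^ (((3 * E + 1 : ℕ) : ℝ))) (w j k) := by
    intro j hj k
    have hj3 := hj.1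
    have hj2 := hM3 hj3
    have hj1 := hM2 hj2
    have ht := hxl j hj
    have ht3 : (1 : ℝ) ≤ |(x j : ℝ)| ^ 3 := one_le_pow₀ (by linarith)
    have hB1 : 1 ≤ K3 * |(x j : ℝ)| ^ 3 := one_le_mul_of_one_le_of_one_le hK31 ht3
    have hx23 : |(x j : ℝ)| ^ 2 ≤ |(x j : ℝ)| ^ 3 := pow_le_pow_right₀ (by linarith) (by norm_num)
    have h1 := hSQ (Sum.elim (b1 j) (b2 j)) (w j) (K3 * |(x j : ℝ)| ^ 3) hB1 (fun i => by
      cases i with
      | inl i => exact hb1 j hj1 i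
      | inr i => exact hb2 j hj2 i) (fun i => by
      cases i with
      | inl i =>
        show |(b1 j i : ℝ)| ≤ _
        have h3 : |(b1 j i : ℝ)| ≤ K1 * |((x j : ℤ) : ℝ)| ^ (2 : ℝ) := hK1 j hj1 i
        have h5 : |(x j : ℝ)| ^ (2 : ℝ) = |(x j : ℝ)| ^ 2 := by
          rw [show (2 : ℝ) = ((2 : ℕ) : ℝ) by norm_num, Real.rpow_natCast]
        rw [h5] at h3
        have h4 : K1 * |(x j : ℝ)| ^ 2 ≤ K3 * |(x j : ℝ)| ^ 3 := by
          have h6 : K1 ≤ K3 := by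
            have := le_abs_self K1
            have := abs_nonneg K2
            linarith
          have h7 : K1 * |(x j : ℝ)| ^ 2 ≤ K3 * |(x j : ℝ)| ^ 2 :=
            mul_le_mul_of_nonneg_right h6 (by positivity)
          have h8 : K3 * |(x j : ℝ)| ^ 2 ≤ K3 * |(x j : ℝ)| ^ 3 :=
            mul_le_mul_of_nonneg_left hx23 (by linarith)
          exact h7.trans h8
        exact h3.trans h4
      | inr i =>
        show |(b2 j i : ℝ)| ≤ _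
        have h3 : |(b2 j i : ℝ)| ≤ K2 * |((y j : ℤ) : ℝ)| ^ (2 : ℝ) := hK2 j hj2 i
        have h5 : |(y j : ℝ)| ^ (2 : ℝ) = |(y j : ℝ)| ^ 2 := by
          rw [show (2 : ℝ) = ((2 : ℕ) : ℝ) by norm_num, Real.rpow_natCast]
        rw [h5] at h3
        have h9 := (hy2 j (m2 j hj)).1
        have h4 : K2 * |(y j : ℝ)| ^ 2 ≤ K3 * |(x j : ℝ)| ^ 3 := by
          have h6 : K2 ≤ |K2| := le_abs_self K2
          have h7 : K2 * |(y j : ℝ)| ^ 2 ≤ |K2| * |(y j : ℝ)| ^ 2 :=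
            mul_le_mul_of_nonneg_right h6 (by positivity)
          have h8 : |K2| * |(y j : ℝ)| ^ 2 ≤ |K2| * (2 * |(x j : ℝ)| ^ 3) :=
            mul_le_mul_of_nonneg_left h9 (abs_nonneg _)
          have h10 : |K2| * (2 * |(x j : ℝ)| ^ 3) ≤ K3 * |(x j : ℝ)| ^ 3 := by
            have h11 : 2 * |K2| ≤ K3 := by
              have := abs_nonneg K1
              linarith
            have := mul_le_mul_of_nonneg_right h11 (show 0 ≤ |(x j : ℝ)| ^ 3 by positivity)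
            linarith
          exact h7.trans (h8.trans h10)
        exact h3.trans h4) (fun k => hwe k j hj3) k
    exact SQ_mono h1 (pow_bd hK hK31 (hxR j hj))
  -- the Laurent polynomials
  have hwp : ∀ j ∈ M4, ∀ k, 0 < w j k := fun j hj => hI.1 j hj.1
  refine hCO r S' M4 w (∑ i : Fin t1, AddMonoidAlgebra.single (m (Sum.inl i)) (c1 i * c (Sum.inl i)))
    (∑ i : Fin t2, AddMonoidAlgebra.single (m (Sum.inr i)) (c2 i * c (Sum.inr i)))
    (((3 * E + 1 : ℕ) : ℝ)) ε x y hS' hM4i hε (by positivity)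
    ⟨fun j hj => hI.1 j hj.1, fun l ρ hl => (hI.2 l ρ hl).subset fun j hj => ⟨hj.1.1, hj.2⟩⟩
    (fun B => ?_) (fun j hj => ⟨hsq j hj, ?_, ?_, hne j, hd j⟩)
  · refine (Set.finite_le_nat ⌊B⌋₊).subset fun j hj => ?_
    have h1 : (j : ℝ) ≤ B := (hjx j).trans hj.2
    exact Nat.le_floor h1
  · have h1 : ((∑ i, (f j).1.1 i : ℤ) : ℚ) = ∑ i, c1 i * (b1 j i : ℚ) := hs1 j (hM2 (hM3 hj.1))
    rw [evL_single_sum hB (hwp j hj)]
    refine h1.trans (sum_congr rfl fun i _ => ?_)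
    have h2 : ((b1 j i : ℤ) : ℚ) = c (Sum.inl i) * mon (w j) (m (Sum.inl i)) :=
      hu j hj.1 (Sum.inl i)
    rw [h2, mul_assoc]
  · have h1 : ((∑ i, (f j).1.2 i : ℤ) : ℚ) = ∑ i, c2 i * (b2 j i : ℚ) := hs2 j (hM3 hj.1)
    rw [evL_single_sum hB (hwp j hj)]
    refine h1.trans (sum_congr rfl fun i _ => ?_)
    have h2 : ((b2 j i : ℤ) : ℚ) = c (Sum.inr i) * mon (w j) (m (Sum.inr i)) :=
      hu j hj.1 (Sum.inr i)
    rw [h2, mul_assoc]

end Pool.Agent.Helper17.SUB
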